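import Pool.Agent.Y546.WQ.Stm6

/-!
# Project RT, KB: `p` is totally ramified in `K(ζ_p) / K` if `p` is inert in `K` (helper448)
-/

set_option autoImplicit false

namespace Pool.Agent.Y448.WQ

open NumberField IsDedekindDomain Polynomial Pool.Agent.Y546.WQ

/-- `p` is associated to the power of exponent `p - 1` of `1 - u` -/
theorem assoc_pow {S : Type*} [CommRing S] [IsDomain S] {p : ℕ} (hp : p.Prime) {u : S}
    (hu : IsPrimitiveRoot u p) : Associated ((p : ℕ) : S) ((1 - u) ^ (p - 1)) := by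
  obtain ⟨n, rfl⟩ : ∃ n, p = n + 1 := ⟨p - 1, by have := hp.pos; omega⟩
  have h1 := hu.prod_one_sub_pow_eq_order
  have h2 : ∀ k ∈ Finset.range n, Associated (1 - u ^ (k + 1)) (1 - u) := by
    intro k hk
    have h3 : (k + 1).Coprime (n + 1) := by
      refine ((Nat.Prime.coprime_iff_not_dvd hp).2 ?_).symm
      intro hd
      have := Nat.le_of_dvd (by omega) hd
      have := Finset.mem_range.1 hk
      omega
    have h4 := hu.associated_sub_one_pow_sub_one_of_coprime h3
    have h5 := h4.symm.neg_left.neg_right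
    rwa [neg_sub, neg_sub] at h5
  push_cast
  rw [← h1]
  have h6 : Associated (∏ k ∈ Finset.range n, (1 - u ^ (k + 1)))
      (∏ _k ∈ Finset.range n, (1 - u)) := Associated.prod _ _ _ h2
  rw [Finset.prod_const, Finset.card_range] at h6
  simpa using h6

/-- the norm of the ideal generated by a natural number -/
theorem absNorm_nat (K : Type) [Field K] [NumberField K] (n : ℕ) :
    Ideal.absNorm (Ideal.span {((n : ℕ) : 𝓞 K)}) = n ^ Module.finrank ℚ K := by
  rw [Ideal.absNorm_span_singleton]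
  have h1 := Algebra.norm_algebraMap_of_basis (Module.Free.chooseBasis ℤ (𝓞 K)) (n : ℤ)
  rw [← Module.finrank_eq_card_chooseBasisIndex, RingOfIntegers.rank] at h1
  have h2 : algebraMap ℤ (𝓞 K) (n : ℤ) = ((n : ℕ) : 𝓞 K) := by simp
  rw [h2] at h1
  rw [h1, Int.natAbs_pow, Int.natAbs_natCast]

theorem mainKB : S_KB := by
  intro p _ hp2 K M _ _ _ _ _ z hz hdeg h𝔭
  have hp : p.Prime := Fact.out
  haveI : NeZero p := ⟨hp.ne_zero⟩
  have hp1 : p - 1 ≠ 0 := by have := hp.two_le; omega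
  set u : 𝓞 M := hz.toInteger with hu
  have hup : IsPrimitiveRoot u p := hz.toInteger_isPrimitiveRoot
  have hass := assoc_pow hp hup
  set π : 𝓞 M := 1 - u with hπ
  have hπ0 : π ≠ 0 := by
    intro h
    have h1 : u = 1 := (sub_eq_zero.1 h).symm
    exact hup.ne_one hp.one_lt h1
  have hpO0 : ((p : ℕ) : 𝓞 K) ≠ 0 := Nat.cast_ne_zero.2 hp.ne_zero
  have h𝔭0 : Ideal.span {((p : ℕ) : 𝓞 K)} ≠ ⊥ := by
    rw [Ne, Ideal.span_singleton_eq_bot]
    exact hpO0
  have h𝔭m : (Ideal.span {((p : ℕ) : 𝓞 K)}).IsMaximal := h𝔭.isMaximal h𝔭0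
  have hpprime : Prime ((p : ℕ) : 𝓞 K) := (Ideal.span_singleton_prime hpO0).1 h𝔭
  -- the norm of the ideal of `1 - u`
  set I : Ideal (𝓞 M) := Ideal.span {π} with hI
  have hn : Module.finrank ℚ K * (p - 1) = Module.finrank ℚ M := by
    rw [← hdeg, Module.finrank_mul_finrank ℚ K M]
  have hN : Ideal.absNorm I = p ^ Module.finrank ℚ K := by
    have h1 : Ideal.absNorm I ^ (p - 1) = (p ^ Module.finrank ℚ K) ^ (p - 1) := by
      rw [← pow_mul, hn, ← map_pow, hI, Ideal.span_singleton_pow,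
        Ideal.span_singleton_eq_span_singleton.2 hass.symm, absNorm_nat]
    exact Nat.pow_left_injective hp1 h1
  have hcard : Nat.card (𝓞 M ⧸ I) = p ^ Module.finrank ℚ K := by
    rw [← hN, Ideal.absNorm_apply, Submodule.cardQuot_apply]
  have hcardO : Nat.card (𝓞 K ⧸ Ideal.span {((p : ℕ) : 𝓞 K)}) = p ^ Module.finrank ℚ K := by
    rw [← absNorm_nat, Ideal.absNorm_apply, Submodule.cardQuot_apply]
  have hfin : Finite (𝓞 M ⧸ I) := Nat.finite_of_card_ne_zero (by
    rw [hcard]
    exact pow_ne_zero _ hp.ne_zero)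
  have hItop : I ≠ ⊤ := by
    intro h
    rw [h, Ideal.absNorm_top] at hN
    have h1 : 1 < p ^ Module.finrank ℚ K :=
      Nat.one_lt_pow (Module.finrank_pos (R := ℚ) (M := K)).ne' hp.one_lt
    omega
  have hI0 : I ≠ ⊥ := by
    rw [hI, Ne, Ideal.span_singleton_eq_bot]
    exact hπ0
  have hpI : ((p : ℕ) : 𝓞 M) ∈ I :=
    Ideal.mem_span_singleton.2 ((dvd_pow_self π hp1).trans hass.symm.dvd)
  -- the map of the residue rings
  set φ : 𝓞 K →+* 𝓞 M ⧸ I := (Ideal.Quotient.mk I).comp (algebraMap (𝓞 K) (𝓞 M)) with hφ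
  haveI : Nontrivial (𝓞 M ⧸ I) := Ideal.Quotient.nontrivial_iff.2 hItop
  have hker : Ideal.span {((p : ℕ) : 𝓞 K)} = RingHom.ker φ := by
    refine h𝔭m.eq_of_le (RingHom.ker_ne_top φ) ?_
    rw [Ideal.span_singleton_le_iff_mem, RingHom.mem_ker, hφ, RingHom.comp_apply, map_natCast]
    exact Ideal.Quotient.eq_zero_iff_mem.2 hpI
  have hsurj : Function.Surjective φ := by
    have h1 : Function.Bijective (RingHom.kerLift φ) := by
      refine (RingHom.kerLift_injective φ).bijective_of_nat_card_le ?_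
      rw [← hker, hcard, hcardO]
    intro x
    obtain ⟨y, hy⟩ := h1.2 x
    obtain ⟨y', rfl⟩ := Ideal.Quotient.mk_surjective y
    exact ⟨y', hy⟩
  have hmemI : ∀ c : 𝓞 K, algebraMap (𝓞 K) (𝓞 M) c ∈ I → ((p : ℕ) : 𝓞 K) ∣ c := by
    intro c hc
    rw [← Ideal.mem_span_singleton, hker, RingHom.mem_ker]
    exact Ideal.Quotient.eq_zero_iff_mem.2 hc
  have hIp : I.IsPrime := by
    rw [← Ideal.Quotient.isDomain_iff_prime]
    haveI : (RingHom.ker φ).IsPrime := hker ▸ h𝔭
    exact (RingHom.quotientKerEquivOfSurjective hsurj).symm.toMulEquiv.isDomain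
      (𝓞 K ⧸ RingHom.ker φ)
  have hIm : I.IsMaximal := hIp.isMaximal hI0
  set P0 : HeightOneSpectrum (𝓞 M) := ⟨I, hIp, hI0⟩ with hP0
  have hvπ : P0.intValuation π = WithZero.exp (-1 : ℤ) := P0.intValuation_singleton hπ0 rfl
  have hvp : P0.intValuation ((p : ℕ) : 𝓞 M) = WithZero.exp (-1 : ℤ) ^ (p - 1) := by
    obtain ⟨w, hw⟩ := hass
    have h1 : P0.intValuation (w : 𝓞 M) = 1 := by
      rw [HeightOneSpectrum.intValuation_eq_one_iff]
      intro h
      exact hIp.ne_top (Ideal.eq_top_of_isUnit_mem _ h w.isUnit)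
    have h2 := congrArg P0.intValuation hw
    rw [map_mul, h1, mul_one, map_pow, hvπ] at h2
    exact h2
  refine ⟨P0, hpI, ?_, ?_, ?_, ?_⟩
  · intro P hP
    have h1 : π ∈ P.asIdeal := by
      refine P.isPrime.mem_of_pow_mem (p - 1) ?_
      exact P.asIdeal.mem_of_dvd hass.dvd hP
    have h2 : I = P.asIdeal := hIm.eq_of_le P.isPrime.ne_top
      ((Ideal.span_singleton_le_iff_mem _).2 h1)
    exact HeightOneSpectrum.ext h2.symm
  · have h1 : (1 - z : M) = algebraMap (𝓞 M) M π := by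
      rw [hπ, map_sub, map_one]
      rfl
    rw [h1, P0.valuation_of_algebraMap, hvπ]
  · intro x
    obtain ⟨y, hy⟩ := hsurj (Ideal.Quotient.mk I x)
    exact ⟨y, Ideal.Quotient.eq.1 hy.symm⟩
  · intro v hv
    have hv1 : Ideal.span {((p : ℕ) : 𝓞 K)} = v.asIdeal := h𝔭m.eq_of_le v.isPrime.ne_top
      ((Ideal.span_singleton_le_iff_mem _).2 hv)
    have hvvp : v.intValuation ((p : ℕ) : 𝓞 K) = WithZero.exp (-1 : ℤ) :=
      v.intValuation_singleton hpO0 hv1.symm
    have key : ∀ b : 𝓞 K, P0.intValuation (algebraMap (𝓞 K) (𝓞 M) b) =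
        v.intValuation b ^ (p - 1) := by
      intro b
      by_cases hb : b = 0
      · rw [hb, map_zero, map_zero, map_zero, zero_pow hp1]
      · obtain ⟨k, c, hc, rfl⟩ := WfDvdMonoid.max_power_factor hb hpprime.irreducible
        have h1 : v.intValuation c = 1 := by
          rw [HeightOneSpectrum.intValuation_eq_one_iff, ← hv1, Ideal.mem_span_singleton]
          exact hc
        have h2 : P0.intValuation (algebraMap (𝓞 K) (𝓞 M) c) = 1 := by
          rw [HeightOneSpectrum.intValuation_eq_one_iff]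
          exact fun h => hc (hmemI c h)
        rw [map_mul, map_mul, map_mul, h1, h2, map_pow, map_pow, map_pow, map_natCast, hvp, hvvp,
          mul_one, mul_one, ← pow_mul, ← pow_mul, mul_comm]
    intro a
    obtain ⟨x, y, hy, rfl⟩ := IsFractionRing.div_surjective (A := 𝓞 K) a
    have h1 : ∀ b : 𝓞 K, algebraMap K M (algebraMap (𝓞 K) K b) =
        algebraMap (𝓞 M) M (algebraMap (𝓞 K) (𝓞 M) b) := by
      intro b
      rw [← IsScalarTower.algebraMap_apply (𝓞 K) K M b,
        IsScalarTower.algebraMap_apply (𝓞 K) (𝓞 M) M b]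
    rw [map_div₀, map_div₀, map_div₀, h1, h1, P0.valuation_of_algebraMap,
      P0.valuation_of_algebraMap, v.valuation_of_algebraMap, v.valuation_of_algebraMap, key, key,
      div_pow]

end Pool.Agent.Y448.WQ
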